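import Pool.Agent.Lib.MP_15cfc2_co_hr.Radon

/-!
Asymptotics of `G(d,k) = Γ(k/2) Γ((d-k)/2+1) / Γ(d/2)` for fixed `k`.
-/

open Filter Topology Real

namespace Pool.Agent.MP15cfc2.HR

/-- ratio -/
noncomputable def gr (a x : ℝ) : ℝ := Gamma (x + a) / (Gamma x * x ^ a)

lemma gr_zero : Tendsto (gr 0) atTop (𝓝 1) := by
  apply tendsto_const_nhds.congr'
  filter_upwards [eventually_gt_atTop 0] with x hx
  have := (Gamma_pos_of_pos hx).ne'
  simp [gr, this]

lemma gamma_half_le {x : ℝ} (hx : 0 < x) : Gamma (x + 1 / 2) ≤ √x * Gamma x := by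
  have h := Real.Gamma_mul_add_mul_le_rpow_Gamma_mul_rpow_Gamma (s := x) (t := x + 1)
    (a := 1 / 2) (b := 1 / 2) hx (by linarith) (by norm_num) (by norm_num) (by norm_num)
  have hG := Gamma_pos_of_pos hx
  have e1 : 1 / 2 * x + 1 / 2 * (x + 1) = x + 1 / 2 := by ring
  rw [e1, Gamma_add_one hx.ne', ← sqrt_eq_rpow, ← sqrt_eq_rpow, sqrt_mul hx.le] at h
  calc Gamma (x + 1 / 2) ≤ √(Gamma x) * (√x * √(Gamma x)) := h
    _ = √x * (√(Gamma x) * √(Gamma x)) := by ring
    _ = √x * Gamma x := by rw [mul_self_sqrt hG.le]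

lemma le_gamma_half {x : ℝ} (hx : 1 / 2 < x) : √(x - 1 / 2) * Gamma x ≤ Gamma (x + 1 / 2) := by
  have h0 : 0 < x - 1 / 2 := by linarith
  have h := gamma_half_le h0
  have e1 : x - 1 / 2 + 1 / 2 = x := by ring
  have e2 : Gamma (x + 1 / 2) = (x - 1 / 2) * Gamma (x - 1 / 2) := by
    rw [← Gamma_add_one h0.ne']
    congr 1
    ring
  rw [e1] at h
  rw [e2]
  calc √(x - 1 / 2) * Gamma x ≤ √(x - 1 / 2) * (√(x - 1 / 2) * Gamma (x - 1 / 2)) := by gcongr
    _ = _ := by rw [← mul_assoc, mul_self_sqrt h0.le]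

lemma gr_half : Tendsto (gr (1 / 2)) atTop (𝓝 1) := by
  have h1 : Tendsto (fun x : ℝ => √((x - 1 / 2) / x)) atTop (𝓝 1) := by
    have h2 : Tendsto (fun x : ℝ => 1 - 1 / 2 * x⁻¹) atTop (𝓝 (1 - 1 / 2 * 0)) :=
      tendsto_const_nhds.sub (tendsto_const_nhds.mul tendsto_inv_atTop_zero)
    have h3 := h2.sqrt
    simp only [mul_zero, sub_zero, sqrt_one] at h3
    refine h3.congr' ?_
    filter_upwards [eventually_gt_atTop 0] with x hx
    congr 1
    field_simp
  refine tendsto_of_tendsto_of_tendsto_of_le_of_le' h1 tendsto_const_nhds ?_ ?_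
  · filter_upwards [eventually_gt_atTop (1 / 2)] with x hx
    have hx0 : 0 < x := by linarith
    have hG := Gamma_pos_of_pos hx0
    have hs : 0 < √x := sqrt_pos.2 hx0
    rw [gr, ← sqrt_eq_rpow, le_div_iff₀ (by positivity), sqrt_div (by linarith)]
    calc √(x - 1 / 2) / √x * (Gamma x * √x) = √(x - 1 / 2) * Gamma x := by field_simp
      _ ≤ _ := le_gamma_half hx
  · filter_upwards [eventually_gt_atTop (1 / 2)] with x hx
    have hx0 : 0 < x := by linarith
    have hG := Gamma_pos_of_pos hx0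
    have hs : 0 < √x := sqrt_pos.2 hx0
    rw [gr, ← sqrt_eq_rpow, div_le_iff₀ (by positivity), one_mul, mul_comm]
    exact gamma_half_le hx0

lemma gr_succ {a : ℝ} (ha : 0 ≤ a) (h : Tendsto (gr a) atTop (𝓝 1)) :
    Tendsto (gr (a + 1)) atTop (𝓝 1) := by
  have h2 : Tendsto (fun x : ℝ => 1 + a * x⁻¹) atTop (𝓝 (1 + a * 0)) :=
    tendsto_const_nhds.add (tendsto_const_nhds.mul tendsto_inv_atTop_zero)
  have h3 := h.mul h2
  simp only [mul_zero, add_zero, mul_one] at h3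
  refine h3.congr' ?_
  filter_upwards [eventually_gt_atTop 0] with x hx
  have hG := Gamma_pos_of_pos hx
  rw [gr, gr, ← add_assoc, Gamma_add_one (by positivity), rpow_add_one hx.ne']
  field_simp

lemma gr_nat (j : ℕ) : Tendsto (gr j) atTop (𝓝 1) ∧ Tendsto (gr (j + 1 / 2)) atTop (𝓝 1) := by
  induction j with
  | zero => exact ⟨by simpa using gr_zero, by simpa using gr_half⟩
  | succ j ih =>
    refine ⟨?_, ?_⟩
    · have := gr_succ (by positivity) ih.1
      simpa using this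
    · have := gr_succ (by positivity) ih.2
      have e : ((j + 1 : ℕ) : ℝ) + 1 / 2 = (j : ℝ) + 1 / 2 + 1 := by push_cast; ring
      rw [e]
      exact this

lemma gr_k {k : ℕ} (hk : 2 ≤ k) : Tendsto (gr ((k : ℝ) / 2 - 1)) atTop (𝓝 1) := by
  rcases Nat.even_or_odd' k with ⟨j, rfl | rfl⟩
  · have h := (gr_nat (j - 1)).1
    have e : (((2 * j : ℕ) : ℝ)) / 2 - 1 = ((j - 1 : ℕ) : ℝ) := by
      rw [Nat.cast_sub (by omega)]; push_cast; ring
    rwa [e]
  · have h := (gr_nat (j - 1)).2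
    have e : (((2 * j + 1 : ℕ) : ℝ)) / 2 - 1 = ((j - 1 : ℕ) : ℝ) + 1 / 2 := by
      rw [Nat.cast_sub (by omega)]; push_cast; ring
    rwa [e]

/-- asymptotics of the constant for fixed `k` -/
lemma tendsto_lowerConst {k : ℕ} (hk : 2 ≤ k) :
    Tendsto (fun d : ℕ => lowerConst d k * ((d : ℝ) / 2) ^ ((k : ℝ) / 2 - 1)) atTop
      (𝓝 (Gamma ((k : ℝ) / 2))) := by
  set a : ℝ := (k : ℝ) / 2 - 1 with ha
  have ha0 : 0 ≤ a := by
    have : (2 : ℝ) ≤ k := by exact_mod_cast hk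
    rw [ha]; linarith
  -- `x = (d-k)/2 + 1`
  have hx : Tendsto (fun d : ℕ => ((d : ℝ) - k) / 2 + 1) atTop atTop := by
    apply tendsto_atTop_add_const_right
    apply Tendsto.atTop_div_const (by norm_num)
    exact tendsto_atTop_add_const_right _ _ tendsto_natCast_atTop_atTop
  have h1 := (gr_k hk).comp hx
  have h2 := h1.inv₀ one_ne_zero
  rw [inv_one] at h2
  -- `(d/2)/x → 1`
  have h3 : Tendsto (fun d : ℕ => ((d : ℝ) / 2) / (((d : ℝ) - k) / 2 + 1)) atTop (𝓝 1) := by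
    have h4 : Tendsto (fun d : ℕ => 1 + a * (((d : ℝ) - k) / 2 + 1)⁻¹) atTop (𝓝 (1 + a * 0)) :=
      tendsto_const_nhds.add (tendsto_const_nhds.mul (tendsto_inv_atTop_zero.comp hx))
    simp only [mul_zero, add_zero] at h4
    refine h4.congr' ?_
    filter_upwards [hx.eventually_gt_atTop 0] with d hd
    rw [eq_div_iff hd.ne', add_mul, mul_assoc, inv_mul_cancel₀ hd.ne', ha]
    ring
  have h5 : Tendsto (fun d : ℕ => (((d : ℝ) / 2) / (((d : ℝ) - k) / 2 + 1)) ^ a) atTop (𝓝 1) := by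
    have := h3.rpow_const (p := a) (Or.inl one_ne_zero)
    simpa using this
  have h6 := (h2.mul h5).const_mul (Gamma ((k : ℝ) / 2))
  simp only [mul_one] at h6
  refine h6.congr' ?_
  filter_upwards [hx.eventually_gt_atTop 0, eventually_gt_atTop 0] with d hd hd0
  have hd0' : (0 : ℝ) < d := by exact_mod_cast hd0
  simp only [Function.comp_apply, gr, ← ha]
  have e1 : ((d : ℝ) - k) / 2 + 1 + a = (d : ℝ) / 2 := by rw [ha]; ring
  rw [e1, lowerConst, div_rpow (by positivity) hd.le]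
  have g1 := Gamma_pos_of_pos hd
  have g2 : 0 < Gamma ((d : ℝ) / 2) := Gamma_pos_of_pos (by positivity)
  have g3 : 0 < (((d : ℝ) - k) / 2 + 1) ^ a := by positivity
  generalize (((d : ℝ) - k) / 2 + 1) ^ a = Y at *
  generalize Gamma (((d : ℝ) - k) / 2 + 1) = X at *
  field_simp

end Pool.Agent.MP15cfc2.HR
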