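import Pool.Agent.Lib.MP_15cfc2_co_hr.Ellipsoid

/-!
A cylinder of small cross-sectional volume around the subspace `a = 0`.
-/

open MeasureTheory Set Metric Module Filter
open scoped ENNReal Pointwise Topology

namespace Pool.Agent.MP15cfc2.HR

variable {d k p n : ℕ}

lemma exists_submodule_finrank {V : Type*} [AddCommGroup V] [Module ℝ V] [FiniteDimensional ℝ V]
    (N : Submodule ℝ V) {k : ℕ} (hk : k ≤ finrank ℝ N) : ∃ H ≤ N, finrank ℝ H = k := by
  let b := finBasis ℝ N
  let v : Fin k → V := fun i => (b (Fin.castLE hk i) : V)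
  have hv : LinearIndependent ℝ v := by
    have h1 : LinearIndependent ℝ (fun i => (b i : V)) :=
      b.linearIndependent.map' N.subtype (Submodule.ker_subtype N)
    exact h1.comp _ (Fin.castLE_injective hk)
  refine ⟨Submodule.span ℝ (range v), ?_, ?_⟩
  · rw [Submodule.span_le]
    rintro _ ⟨i, rfl⟩
    exact (b (Fin.castLE hk i)).2
  · rw [finrank_span_eq_card hv]; simp

namespace Coords

variable (κ : Coords d k p n)

lemma finrank_ker_a : finrank ℝ (LinearMap.ker κ.a) = p + n := by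
  have h1 := κ.a.finrank_range_add_finrank_ker
  have h3 : Function.Surjective κ.a := fun h => by
    obtain ⟨x, hx, -, -⟩ := κ.surj h 0 0
    exact ⟨x, hx⟩
  rw [LinearMap.range_eq_top.2 h3, finrank_top] at h1
  have h2 := κ.dim_eq
  simp only [finrank_euclideanSpace, Fintype.card_fin] at h1
  omega

lemma exists_cap (hk : 1 ≤ k) (hkp : k ≤ p + n) {ε : ℝ≥0∞} (hε : ε ≠ 0) :
    ∃ C : Cylinder d k, IsOpen C.toSet ∧ {x | κ.a x = 0} ⊆ C.toSet ∧
      C.crv (closedBall 0 1) ≤ ε := by
  have hd := κ.dim_eq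
  obtain ⟨H, hHN, hHk⟩ := exists_submodule_finrank (LinearMap.ker κ.a) (k := k)
    (by rw [κ.finrank_ker_a]; exact hkp)
  let N' : Submodule ℝ Hᗮ := (LinearMap.ker κ.a).comap Hᗮ.subtype
  have hN' : N' ≠ ⊤ := by
    intro h
    have h1 : ∀ x : E d, κ.a x = 0 := by
      intro x
      have h2 := H.starProjection_add_starProjection_orthogonal x
      have h3 : ((H.orthogonalProjectionOnto x : H) : E d) +
        ((Hᗮ.orthogonalProjectionOnto x : Hᗮ) : E d) = x := h2
      rw [← h3, map_add]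
      have h4 : κ.a ((H.orthogonalProjectionOnto x : H) : E d) = 0 := hHN (Subtype.mem _)
      have h5 : Hᗮ.orthogonalProjectionOnto x ∈ N' := by rw [h]; trivial
      have h6 : κ.a ((Hᗮ.orthogonalProjectionOnto x : Hᗮ) : E d) = 0 := h5
      rw [h4, h6, add_zero]
    have : Nonempty (Fin k) := ⟨⟨0, hk⟩⟩
    obtain ⟨y, hy⟩ := exists_ne (0 : E k)
    obtain ⟨x, hx, -, -⟩ := κ.surj y 0 0
    exact hy (hx.symm.trans (h1 x))
  have hvol : (volume : Measure Hᗮ) (N' : Set Hᗮ) = 0 :=
    Measure.addHaar_submodule volume N' hN'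
  have hw := w_pos (d - k)
  have hδ : (volume : Measure Hᗮ) (N' : Set Hᗮ) < ε * ENNReal.ofReal (w (d - k)) := by
    rw [hvol]
    exact ENNReal.mul_pos hε (ENNReal.ofReal_pos.2 hw).ne'
  obtain ⟨U, hNU, hU, hUlt⟩ := (N' : Set Hᗮ).exists_isOpen_lt_of_lt _ hδ
  refine ⟨⟨H, hHk, U, hU.measurableSet.nullMeasurableSet⟩, ?_, ?_, ?_⟩
  · rw [Cylinder.toSet_eq]
    exact hU.preimage (Hᗮ.orthogonalProjectionOnto).continuous
  · intro x hx
    rw [Cylinder.toSet_eq]
    apply hNU
    change κ.a ((Hᗮ.orthogonalProjectionOnto x : Hᗮ) : E d) = 0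
    have h2 := H.starProjection_add_starProjection_orthogonal x
    have h3 : ((H.orthogonalProjectionOnto x : H) : E d) +
      ((Hᗮ.orthogonalProjectionOnto x : Hᗮ) : E d) = x := h2
    have h4 : κ.a ((H.orthogonalProjectionOnto x : H) : E d) = 0 := hHN (Subtype.mem _)
    have h5 : κ.a x = 0 := hx
    rw [← h3, map_add, h4, zero_add] at h5
    exact h5
  · rw [Cylinder.crv_unitBall _ (by omega)]
    exact ENNReal.div_le_of_le_mul hUlt.le

end Coords

end Pool.Agent.MP15cfc2.HR
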