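import Pool.Agent.Lib.MP_15cfc2_co.Bridge

/-!
Orthogonal coordinates `𝔼^d ≃ 𝔼^k × 𝔼^p × 𝔼^n`.
-/

open MeasureTheory Set Metric Module Filter
open scoped ENNReal Pointwise Topology

namespace Pool.Agent.MP15cfc2.HR

/-- model space -/
abbrev Model (k p n : ℕ) := WithLp 2 (E k × WithLp 2 (E p × E n))

lemma finrank_model (k p n : ℕ) : finrank ℝ (Model k p n) = k + (p + n) := by
  rw [(WithLp.linearEquiv 2 ℝ (E k × WithLp 2 (E p × E n))).finrank_eq, finrank_prod,
    (WithLp.linearEquiv 2 ℝ (E p × E n)).finrank_eq, finrank_prod]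
  simp

/-- Orthogonal coordinates on `𝔼^d`. -/
structure Coords (d k p n : ℕ) where
  a : E d →ₗ[ℝ] E k
  b : E d →ₗ[ℝ] E p
  s : E d →ₗ[ℝ] E n
  surj : ∀ h y z, ∃ x, a x = h ∧ b x = y ∧ s x = z
  norm_sq : ∀ x, ‖x‖ ^ 2 = ‖a x‖ ^ 2 + ‖b x‖ ^ 2 + ‖s x‖ ^ 2
  mp : MeasurePreserving (fun x => (a x, (b x, s x))) volume (volume.prod (volume.prod volume))

lemma exists_coords {d k p n : ℕ} (h : d = k + (p + n)) : Nonempty (Coords d k p n) := by
  have e : E d ≃ₗᵢ[ℝ] Model k p n :=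
    ((stdOrthonormalBasis ℝ (Model k p n)).reindex
      (finCongr ((finrank_model k p n).trans h.symm))).repr.symm
  let l1 := WithLp.linearEquiv 2 ℝ (E k × WithLp 2 (E p × E n))
  let l2 := WithLp.linearEquiv 2 ℝ (E p × E n)
  refine ⟨⟨LinearMap.fst ℝ _ _ ∘ₗ l1.toLinearMap ∘ₗ e.toLinearEquiv.toLinearMap,
    LinearMap.fst ℝ _ _ ∘ₗ l2.toLinearMap ∘ₗ LinearMap.snd ℝ _ _ ∘ₗ l1.toLinearMap ∘ₗ
      e.toLinearEquiv.toLinearMap,
    LinearMap.snd ℝ _ _ ∘ₗ l2.toLinearMap ∘ₗ LinearMap.snd ℝ _ _ ∘ₗ l1.toLinearMap ∘ₗ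
      e.toLinearEquiv.toLinearMap, ?_, ?_, ?_⟩⟩
  · intro h y z
    refine ⟨e.symm (l1.symm (h, l2.symm (y, z))), ?_, ?_, ?_⟩ <;> simp
  · intro x
    have h1 := WithLp.prod_norm_sq_eq_of_L2 (e x)
    have h2 := WithLp.prod_norm_sq_eq_of_L2 (e x).snd
    rw [h2, e.norm_map, ← add_assoc] at h1
    exact h1
  · have h1 := (WithLp.volume_preserving_ofLp (E k) (WithLp 2 (E p × E n))).comp
      e.measurePreserving
    have h2 := (MeasurePreserving.id (volume : Measure (E k))).prod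
      (WithLp.volume_preserving_ofLp (E p) (E n))
    exact h2.comp h1

namespace Coords

variable {d k p n : ℕ} (κ : Coords d k p n)

lemma continuous_a : Continuous κ.a := κ.a.continuous_of_finiteDimensional

lemma continuous_b : Continuous κ.b := κ.b.continuous_of_finiteDimensional

lemma continuous_s : Continuous κ.s := κ.s.continuous_of_finiteDimensional

include κ in
lemma dim_eq : d = k + (p + n) := by
  let Φ : E d →ₗ[ℝ] (E k × (E p × E n)) := κ.a.prod (κ.b.prod κ.s)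
  have hinj : Function.Injective Φ := by
    rw [injective_iff_map_eq_zero]
    intro x hx
    have h1 : κ.a x = 0 := congrArg Prod.fst hx
    have h2 : κ.b x = 0 := congrArg (fun q => q.2.1) hx
    have h3 : κ.s x = 0 := congrArg (fun q => q.2.2) hx
    have := κ.norm_sq x
    rw [h1, h2, h3] at this
    simpa using this
  have hsurj : Function.Surjective Φ := by
    rintro ⟨h, y, z⟩
    obtain ⟨x, h1, h2, h3⟩ := κ.surj h y z
    exact ⟨x, by simp [Φ, h1, h2, h3]⟩
  have := (LinearEquiv.ofBijective Φ ⟨hinj, hsurj⟩).finrank_eq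
  simpa using this

end Coords

end Pool.Agent.MP15cfc2.HR
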