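import Pool.Agent.Lib.MP_15cfc2_co_hr.Density

/-!
Economical coverings of the ball by thin tubes around the leaves of the foliation given by an
orthogonal multiplication `𝔼^p × 𝔼^k → 𝔼^p`.
-/

open MeasureTheory Set Metric Module Filter
open scoped ENNReal Pointwise Topology

namespace Pool.Agent.MP15cfc2.HR

variable {d k p n : ℕ}

/-- An orthogonal multiplication `𝔼^p × 𝔼^k → 𝔼^p`. -/
structure OrthMul (k p : ℕ) where
  L : E p →ₗ[ℝ] E k →ₗ[ℝ] E p
  norm_L : ∀ t h, ‖L t h‖ = ‖t‖ * ‖h‖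

namespace OrthMul

variable (M : OrthMul k p)

lemma exists_solution {h : E k} (hh : h ≠ 0) (y : E p) : ∃ t, M.L t h = y := by
  have hinj : Function.Injective (M.L.flip h) := by
    rw [injective_iff_map_eq_zero]
    intro t ht
    have h1 := M.norm_L t h
    rw [LinearMap.flip_apply] at ht
    rw [ht, norm_zero] at h1
    have h2 : ‖h‖ ≠ 0 := norm_ne_zero_iff.2 hh
    rcases mul_eq_zero.1 h1.symm with h3 | h3
    · exact norm_eq_zero.1 h3
    · exact absurd h3 h2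
  obtain ⟨t, ht⟩ := (LinearMap.injective_iff_surjective.1 hinj) y
  exact ⟨t, ht⟩

include M in
lemma k_le_p (hp : 1 ≤ p) : k ≤ p := by
  have : Nonempty (Fin p) := ⟨⟨0, hp⟩⟩
  obtain ⟨t, ht⟩ := exists_ne (0 : E p)
  have hinj : Function.Injective (M.L t) := by
    rw [injective_iff_map_eq_zero]
    intro h hh
    have h1 := M.norm_L t h
    rw [hh, norm_zero] at h1
    have h2 : ‖t‖ ≠ 0 := norm_ne_zero_iff.2 ht
    rcases mul_eq_zero.1 h1.symm with h3 | h3
    · exact absurd h3 h2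
    · exact norm_eq_zero.1 h3
  have := LinearMap.finrank_le_finrank_of_injective hinj
  simpa using this

end OrthMul

/-- the measure with density `dens` -/
noncomputable def μd (k p : ℕ) : Measure (E p) :=
  (volume : Measure (E p)).withDensity fun t => ENNReal.ofReal (dens k p t)

lemma μd_univ (hk : 1 ≤ k) : μd k p univ = ENNReal.ofReal (w p * lowerConst (k + p) k) := by
  rw [μd, withDensity_apply _ MeasurableSet.univ, setLIntegral_univ, lintegral_dens hk]

/-- radii that are small enough at `t` -/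
def Good (k p : ℕ) (δ : ℝ) (t : E p) (r : ℝ) : Prop :=
  0 < r ∧ (∀ t' ∈ closedBall t r, 1 + ‖t‖ ^ 2 ≤ (1 + δ) ^ 2 * (1 + ‖t'‖ ^ 2)) ∧
    ENNReal.ofReal (dens k p t * r ^ p * w p) ≤
      ENNReal.ofReal (1 + δ) * μd k p (closedBall t r)

lemma exists_good {δ : ℝ} (hδ : 0 < δ) (t : E p) {η : ℝ} (hη : 0 < η) (hp : 1 ≤ p) :
    ∃ r, Good k p δ t r ∧ r < η := by
  have c1 : Continuous fun t' : E p => (1 + δ) ^ 2 * (1 + ‖t'‖ ^ 2) := by fun_prop
  have h1 : 1 + ‖t‖ ^ 2 < (1 + δ) ^ 2 * (1 + ‖t‖ ^ 2) := by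
    have h0 : 0 < 1 + ‖t‖ ^ 2 := by positivity
    have h1 : 1 < (1 + δ) ^ 2 := by nlinarith
    exact lt_mul_of_one_lt_left h0 h1
  have c2 : Continuous fun t' : E p => (1 + δ) * dens k p t' :=
    continuous_const.mul (continuous_dens k p)
  have h2 : dens k p t < (1 + δ) * dens k p t := by
    have := dens_pos k p t
    nlinarith
  have hev : ∀ᶠ t' in 𝓝 t, 1 + ‖t‖ ^ 2 < (1 + δ) ^ 2 * (1 + ‖t'‖ ^ 2) ∧
      dens k p t < (1 + δ) * dens k p t' :=
    ((c1.tendsto t).eventually_const_lt h1).and ((c2.tendsto t).eventually_const_lt h2)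
  obtain ⟨ε, hε, hball⟩ := Metric.nhds_basis_closedBall.eventually_iff.1 hev
  refine ⟨min ε (η / 2), ⟨by positivity, ?_, ?_⟩, ?_⟩
  · intro t' ht'
    exact (hball (closedBall_subset_closedBall (min_le_left _ _) ht')).1.le
  · set r := min ε (η / 2) with hr
    have hr0 : 0 < r := by positivity
    rw [μd, withDensity_apply _ measurableSet_closedBall]
    have h3 : ∫⁻ _ in closedBall t r, ENNReal.ofReal (dens k p t) ≤
        ∫⁻ t' in closedBall t r, ENNReal.ofReal (1 + δ) * ENNReal.ofReal (dens k p t') := by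
      apply setLIntegral_mono' measurableSet_closedBall
      intro t' ht'
      rw [← ENNReal.ofReal_mul (by positivity)]
      exact ENNReal.ofReal_le_ofReal
        (hball (closedBall_subset_closedBall (min_le_left _ _) ht')).2.le
    rw [lintegral_const_mul' _ _ ENNReal.ofReal_ne_top, setLIntegral_const] at h3
    refine le_trans (le_of_eq ?_) h3
    have hnt : Nonempty (Fin p) := ⟨⟨0, hp⟩⟩
    rw [Measure.addHaar_closedBall _ _ hr0.le, volume_unit_ball (n := p) hp (by simp),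
      finrank_euclideanSpace_fin, ← ENNReal.ofReal_mul (by positivity),
      ← ENNReal.ofReal_mul (dens_pos k p t).le, mul_assoc]
  · exact (min_le_right _ _).trans_lt (by linarith)

/-- An admissible number is at most the cost of any finite covering of the unit ball. -/
lemma admissible_le_fintype {c : ℝ} (hc : Admissible d k c) {ι : Type*} [Fintype ι]
    (C : ι → Cylinder d k) (hC : closedBall (0 : E d) 1 ⊆ ⋃ i, (C i).toSet) :
    ENNReal.ofReal c ≤ ∑ i, (C i).crv (closedBall 0 1) := by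
  have h1 := hc (closedBall 0 1) ⟨AffineEquiv.refl ℝ (E d), by simp⟩ (Fintype.card ι)
    (fun j => C ((Fintype.equivFin ι).symm j)) (by
      intro x hx
      obtain ⟨i, hi⟩ := mem_iUnion.1 (hC hx)
      exact mem_iUnion.2 ⟨Fintype.equivFin ι i, by simpa using hi⟩)
  refine h1.trans (le_of_eq ?_)
  exact Fintype.sum_equiv (Fintype.equivFin ι).symm _ _ (fun _ => rfl)

/-- the radius of the tube over `t` that covers the points with parameter in `closedBall t r` -/
noncomputable def rad (δ : ℝ) (t : E p) (r : ℝ) : ℝ := (1 + δ) * r / √(1 + ‖t‖ ^ 2)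

lemma mem_tube (κ : Coords d k p n) (M : OrthMul k p) {δ : ℝ} (hδ : 0 < δ) {t : E p} {r : ℝ}
    (hr : Good k p δ t r) {t' : E p} (ht' : t' ∈ closedBall t r) {x : E d}
    (hx : x ∈ closedBall (0 : E d) 1) (hxt : M.L t' (κ.a x) = κ.b x) :
    x ∈ (κ.tube (M.L t) (rad δ t r) (1 + δ)).toSet := by
  rw [κ.tube_toSet]
  obtain ⟨hr0, h1, -⟩ := hr
  have h2 := h1 t' ht'
  rw [mem_closedBall_zero_iff] at hx
  have h3 : ‖x‖ ^ 2 ≤ 1 := by
    have := norm_nonneg x
    nlinarith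
  rw [κ.norm_sq, ← hxt, M.norm_L] at h3
  change ‖(rad δ t r)⁻¹ • (κ.b x - M.L t (κ.a x))‖ ^ 2 + ‖κ.s x‖ ^ 2 < (1 + δ) ^ 2
  have h4 : κ.b x - M.L t (κ.a x) = M.L (t' - t) (κ.a x) := by
    rw [map_sub, LinearMap.sub_apply, hxt]
  rw [h4, norm_smul, M.norm_L]
  have h5 : ‖t' - t‖ ≤ r := by
    rw [mem_closedBall, dist_eq_norm] at ht'
    exact ht'
  set S := √(1 + ‖t‖ ^ 2) with hS
  have hS0 : 0 < S := Real.sqrt_pos.2 (by positivity)
  have hS2 : S ^ 2 = 1 + ‖t‖ ^ 2 := Real.sq_sqrt (by positivity)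
  have h6 : ‖(rad δ t r)⁻¹‖ = S / ((1 + δ) * r) := by
    rw [rad, Real.norm_eq_abs, abs_of_pos (by positivity), inv_div]
  rw [h6]
  have h7 : (S / ((1 + δ) * r) * (‖t' - t‖ * ‖κ.a x‖)) ^ 2 ≤ ‖κ.a x‖ ^ 2 * (1 + ‖t'‖ ^ 2) := by
    have h8 : (S / ((1 + δ) * r) * (‖t' - t‖ * ‖κ.a x‖)) ^ 2 =
        (S ^ 2 / (1 + δ) ^ 2) * ((‖t' - t‖ / r) ^ 2) * ‖κ.a x‖ ^ 2 := by
      field_simp
    rw [h8]
    have h9 : (‖t' - t‖ / r) ^ 2 ≤ 1 := by
      have : ‖t' - t‖ / r ≤ 1 := (div_le_one hr0).2 h5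
      have h0 : 0 ≤ ‖t' - t‖ / r := by positivity
      nlinarith
    have h10 : S ^ 2 / (1 + δ) ^ 2 ≤ 1 + ‖t'‖ ^ 2 := by
      rw [div_le_iff₀ (by positivity), hS2, mul_comm]
      exact h2
    have h11 : 0 ≤ S ^ 2 / (1 + δ) ^ 2 := by positivity
    calc (S ^ 2 / (1 + δ) ^ 2) * ((‖t' - t‖ / r) ^ 2) * ‖κ.a x‖ ^ 2
        ≤ (1 + ‖t'‖ ^ 2) * 1 * ‖κ.a x‖ ^ 2 := by gcongr
      _ = _ := by ring
  nlinarith

/-- cost of a tube -/
lemma tube_cost (κ : Coords d k p n) (M : OrthMul k p) (hp : 1 ≤ p) {δ : ℝ} (hδ : 0 < δ) {t : E p}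
    {r : ℝ} (hr : Good k p δ t r) :
    (κ.tube (M.L t) (rad δ t r) (1 + δ)).crv (closedBall 0 1) ≤
      ENNReal.ofReal ((1 + δ) ^ (2 * p + n + 1) / w p) * μd k p (closedBall t r) := by
  obtain ⟨hr0, -, h1⟩ := hr
  have hw := w_pos p
  have hS0 : 0 < √(1 + ‖t‖ ^ 2) := Real.sqrt_pos.2 (by positivity)
  have hρ : 0 < rad δ t r := by unfold rad; positivity
  rw [κ.tube_crv hp (M.norm_L t) hρ (by positivity)]
  have h2 : rad δ t r ^ p * (1 + δ) ^ (p + n) / √(1 + ‖t‖ ^ 2) ^ k =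
      ((1 + δ) ^ (2 * p + n) / w p) * (dens k p t * r ^ p * w p) := by
    have h3 : dens k p t = 1 / √(1 + ‖t‖ ^ 2) ^ (k + p) := by
      rw [dens, Real.rpow_neg (by positivity), one_div]
      congr 1
      rw [Real.sqrt_eq_rpow, ← Real.rpow_natCast ((1 + ‖t‖ ^ 2) ^ (1 / 2 : ℝ)) (k + p),
        ← Real.rpow_mul (by positivity)]
      congr 1
      ring
    rw [h3, rad, div_pow, mul_pow]
    field_simp
    ring
  rw [h2, ENNReal.ofReal_mul (by positivity)]
  calc ENNReal.ofReal ((1 + δ) ^ (2 * p + n) / w p) * ENNReal.ofReal (dens k p t * r ^ p * w p)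
      ≤ ENNReal.ofReal ((1 + δ) ^ (2 * p + n) / w p) *
        (ENNReal.ofReal (1 + δ) * μd k p (closedBall t r)) := by gcongr
    _ = _ := by
      rw [← mul_assoc, ← ENNReal.ofReal_mul (by positivity)]
      congr 2
      rw [pow_succ]
      ring

/-- The cost of an economical covering. -/
lemma admissible_le_aux (κ : Coords d k p n) (M : OrthMul k p) (hk : 1 ≤ k) (hp : 1 ≤ p) {c : ℝ}
    (hc : Admissible d k c) {δ : ℝ} (hδ : 0 < δ) :
    c ≤ δ + (1 + δ) ^ (2 * p + n + 1) / w p * (w p * lowerConst (k + p) k + δ) := by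
  have hw := w_pos p
  have hG : 0 < lowerConst (k + p) k := by
    unfold lowerConst
    have h1 : 0 < Real.Gamma ((k : ℝ) / 2) := Real.Gamma_pos_of_pos (by positivity)
    have h2 : 0 < Real.Gamma (((k + p : ℕ) : ℝ) / 2) := Real.Gamma_pos_of_pos (by positivity)
    have h3 : 0 < Real.Gamma ((((k + p : ℕ) : ℝ) - k) / 2 + 1) := by
      apply Real.Gamma_pos_of_pos
      push_cast
      have : (0:ℝ) ≤ p := by positivity
      linarith
    positivity
  have hfin : IsFiniteMeasure (μd k p) := ⟨by rw [μd_univ hk]; exact ENNReal.ofReal_lt_top⟩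
  obtain ⟨T, r, -, -, hgood, hcov, hsum⟩ :=
    Besicovitch.exists_closedBall_covering_tsum_measure_le (μd k p)
      (ε := ENNReal.ofReal δ) (ENNReal.ofReal_pos.2 hδ).ne' (fun t => {r | Good k p δ t r}) univ (by
        intro t _ η hη
        obtain ⟨r, hr, hrη⟩ := exists_good (k := k) hδ t hη hp
        exact ⟨r, hr, hr.1, hrη⟩)
  obtain ⟨C₀, hC₀o, hC₀c, hC₀v⟩ := κ.exists_cap hk ((M.k_le_p hp).trans (by omega))
    (ε := ENNReal.ofReal δ) (ENNReal.ofReal_pos.2 hδ).ne'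
  let C : T → Cylinder d k := fun t => κ.tube (M.L t) (rad δ t.1 (r t)) (1 + δ)
  have hK : IsCompact (closedBall (0 : E d) 1 \ C₀.toSet) :=
    (isCompact_closedBall _ _).diff hC₀o
  have hKc : closedBall (0 : E d) 1 \ C₀.toSet ⊆ ⋃ t : T, (C t).toSet := by
    rintro x ⟨hx, hx0⟩
    have hax : κ.a x ≠ 0 := fun h => hx0 (hC₀c h)
    obtain ⟨t', ht'⟩ := M.exists_solution hax (κ.b x)
    obtain ⟨t, htT, ht⟩ := mem_iUnion₂.1 (hcov (mem_univ t'))
    exact mem_iUnion.2 ⟨⟨t, htT⟩, mem_tube κ M hδ (hgood t htT) ht hx ht'⟩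
  obtain ⟨F, hF⟩ := hK.elim_finite_subcover (fun t : T => (C t).toSet)
    (fun t => κ.isOpen_tube _ _ _) hKc
  have h1 := admissible_le_fintype hc (ι := Option F)
    (fun o => o.elim C₀ (fun t => C t.1)) (by
      intro x hx
      by_cases hx0 : x ∈ C₀.toSet
      · exact mem_iUnion.2 ⟨none, hx0⟩
      · obtain ⟨t, htF, ht⟩ := mem_iUnion₂.1 (hF ⟨hx, hx0⟩)
        exact mem_iUnion.2 ⟨some ⟨t, htF⟩, ht⟩)
  rw [Fintype.sum_option] at h1
  have h2 : ∑ t : F, (C t.1).crv (closedBall 0 1) ≤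
      ENNReal.ofReal ((1 + δ) ^ (2 * p + n + 1) / w p) *
        ENNReal.ofReal (w p * lowerConst (k + p) k + δ) := by
    calc ∑ t : F, (C t.1).crv (closedBall 0 1)
        = ∑ t ∈ F, (C t).crv (closedBall 0 1) := Finset.sum_coe_sort F (fun t => (C t).crv (closedBall 0 1))
      _ ≤ ∑ t ∈ F, ENNReal.ofReal ((1 + δ) ^ (2 * p + n + 1) / w p) *
            μd k p (closedBall t.1 (r t)) :=
          Finset.sum_le_sum fun t _ => tube_cost κ M hp hδ (hgood t.1 t.2)
      _ ≤ ∑' t : T, ENNReal.ofReal ((1 + δ) ^ (2 * p + n + 1) / w p) *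
            μd k p (closedBall t.1 (r t)) := ENNReal.sum_le_tsum F
      _ = ENNReal.ofReal ((1 + δ) ^ (2 * p + n + 1) / w p) *
            ∑' t : T, μd k p (closedBall t.1 (r t)) := ENNReal.tsum_mul_left
      _ ≤ _ := by
          gcongr
          refine hsum.trans (le_of_eq ?_)
          rw [μd_univ hk, ← ENNReal.ofReal_add (by positivity) hδ.le]
  have h3 : ENNReal.ofReal c ≤ ENNReal.ofReal
      (δ + (1 + δ) ^ (2 * p + n + 1) / w p * (w p * lowerConst (k + p) k + δ)) := by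
    rw [ENNReal.ofReal_add hδ.le (by positivity), ENNReal.ofReal_mul (by positivity)]
    exact h1.trans (add_le_add hC₀v h2)
  exact (ENNReal.ofReal_le_ofReal_iff (by positivity)).1 h3

/-- The upper bound. -/
theorem admissible_le (κ : Coords d k p n) (M : OrthMul k p) (hk : 1 ≤ k) (hp : 1 ≤ p) {c : ℝ}
    (hc : Admissible d k c) : c ≤ lowerConst (k + p) k := by
  have hw := w_pos p
  have h1 : Continuous fun δ : ℝ =>
      δ + (1 + δ) ^ (2 * p + n + 1) / w p * (w p * lowerConst (k + p) k + δ) := by fun_prop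
  have h2 : Tendsto (fun δ : ℝ =>
      δ + (1 + δ) ^ (2 * p + n + 1) / w p * (w p * lowerConst (k + p) k + δ)) (𝓝[>] 0)
      (𝓝 (lowerConst (k + p) k)) := by
    have h3 := (h1.tendsto 0).mono_left (nhdsWithin_le_nhds (s := Ioi 0))
    have h4 : (0 : ℝ) + (1 + 0) ^ (2 * p + n + 1) / w p * (w p * lowerConst (k + p) k + 0) =
        lowerConst (k + p) k := by
      field_simp
      ring
    rwa [h4] at h3
  refine ge_of_tendsto h2 ?_
  filter_upwards [self_mem_nhdsWithin] with δ hδ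
  exact admissible_le_aux κ M hk hp hc hδ

end Pool.Agent.MP15cfc2.HR
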