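import Pool.Agent.Lib.MP_15cfc2_co.Defs

namespace Pool.Agent.EllipsoidCylinders

/-- The Radon–Hurwitz number: `ρ(m) = 8 a + 2 ^ b` if `m = 2 ^ (4 a + b) * c` with `c` odd and
`0 ≤ b ≤ 3` (so the exponent of `2` in `m` is `4 a + b`). -/
def radonHurwitz (m : ℕ) : ℕ := 8 * (padicValNat 2 m / 4) + 2 ^ (padicValNat 2 m % 4)

/-- The number `G(d,k) = Γ(k/2) Γ((d-k)/2 + 1) / Γ(d/2)`. -/
noncomputable def G (d k : ℕ) : ℝ :=
  Real.Gamma ((k : ℝ) / 2) * Real.Gamma (((d : ℝ) - (k : ℝ)) / 2 + 1) / Real.Gamma ((d : ℝ) / 2)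

end Pool.Agent.EllipsoidCylinders
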