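import Pool.Agent.Lib.MP_15cfc2_co_hr.Cap

/-!
The density `(1 + ‖t‖²)^(-(k+p)/2)` on `𝔼^p` and its total mass.
-/

open MeasureTheory Set Metric Module Filter
open scoped ENNReal Pointwise Topology

namespace Pool.Agent.MP15cfc2.HR

/-- the density -/
noncomputable def dens (k p : ℕ) (t : E p) : ℝ := (1 + ‖t‖ ^ 2) ^ (-(((k + p : ℕ) : ℝ) / 2))

lemma dens_pos (k p : ℕ) (t : E p) : 0 < dens k p t := by
  unfold dens; positivity

lemma continuous_dens (k p : ℕ) : Continuous (dens k p) := by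
  unfold dens
  apply Continuous.rpow_const
  · fun_prop
  · intro t
    left
    positivity

lemma lintegral_gamma {a r : ℝ} (ha : 0 < a) (hr : 0 < r) :
    ∫⁻ u in Ioi (0 : ℝ), ENNReal.ofReal (u ^ (a - 1) * Real.exp (-(r * u))) =
      ENNReal.ofReal ((1 / r) ^ a * Real.Gamma a) := by
  have h := Real.integral_rpow_mul_exp_neg_mul_Ioi ha hr
  have hpos : 0 < (1 / r) ^ a * Real.Gamma a := by
    have := Real.Gamma_pos_of_pos ha
    positivity
  have hint : Integrable (fun t : ℝ => t ^ (a - 1) * Real.exp (-(r * t)))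
      (volume.restrict (Ioi 0)) := by
    by_contra h'
    rw [integral_undef h'] at h
    rw [← h] at hpos
    exact lt_irrefl _ hpos
  rw [← h, ofReal_integral_eq_lintegral_ofReal hint]
  filter_upwards [ae_restrict_mem measurableSet_Ioi] with u hu
  have : (0:ℝ) < u := hu
  positivity

lemma lintegral_gauss {p : ℕ} {u : ℝ} (hu : 0 < u) :
    ∫⁻ t : E p, ENNReal.ofReal (Real.exp (-(‖t‖ ^ 2 * u))) =
      ENNReal.ofReal ((Real.pi / u) ^ ((p : ℝ) / 2)) := by
  have h := GaussianFourier.integral_rexp_neg_mul_sq_norm (V := E p) hu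
  rw [finrank_euclideanSpace_fin] at h
  have hpos : 0 < (Real.pi / u) ^ ((p : ℝ) / 2) := by positivity
  have hint : Integrable (fun v : E p => Real.exp (-u * ‖v‖ ^ 2)) := by
    by_contra h'
    rw [integral_undef h'] at h
    rw [← h] at hpos
    exact lt_irrefl _ hpos
  rw [← h, ofReal_integral_eq_lintegral_ofReal hint (Eventually.of_forall fun v => by positivity)]
  congr 1
  funext t
  congr 2
  ring

lemma lintegral_dens {k p : ℕ} (hk : 1 ≤ k) :
    ∫⁻ t : E p, ENNReal.ofReal (dens k p t) = ENNReal.ofReal (w p * lowerConst (k + p) k) := by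
  set a : ℝ := ((k + p : ℕ) : ℝ) / 2 with ha
  have hk0 : (0 : ℝ) < k := by exact_mod_cast hk
  have ha0 : 0 < a := by rw [ha]; push_cast; positivity
  have hG : 0 < Real.Gamma a := Real.Gamma_pos_of_pos ha0
  -- the double integral
  have e1 : ENNReal.ofReal (Real.Gamma a) * ∫⁻ t : E p, ENNReal.ofReal (dens k p t) =
      ∫⁻ t : E p, ∫⁻ u in Ioi (0 : ℝ),
        ENNReal.ofReal (u ^ (a - 1) * Real.exp (-((1 + ‖t‖ ^ 2) * u))) := by
    rw [← lintegral_const_mul' _ _ ENNReal.ofReal_ne_top]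
    congr 1
    funext t
    rw [lintegral_gamma ha0 (by positivity), ← ENNReal.ofReal_mul hG.le]
    congr 1
    rw [dens, ← ha, Real.rpow_neg (by positivity), one_div, Real.inv_rpow (by positivity), mul_comm]
  have e2 : ∫⁻ t : E p, ∫⁻ u in Ioi (0 : ℝ),
        ENNReal.ofReal (u ^ (a - 1) * Real.exp (-((1 + ‖t‖ ^ 2) * u))) =
      ∫⁻ u in Ioi (0 : ℝ), ∫⁻ t : E p,
        ENNReal.ofReal (u ^ (a - 1) * Real.exp (-((1 + ‖t‖ ^ 2) * u))) := by
    apply lintegral_lintegral_swap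
    apply Measurable.aemeasurable
    apply Measurable.ennreal_ofReal
    apply Measurable.mul
    · exact (measurable_snd.pow_const _)
    · apply Real.measurable_exp.comp
      have : Continuous fun q : E p × ℝ => -((1 + ‖q.1‖ ^ 2) * q.2) := by fun_prop
      exact this.measurable
  have e3 : ∫⁻ u in Ioi (0 : ℝ), ∫⁻ t : E p,
        ENNReal.ofReal (u ^ (a - 1) * Real.exp (-((1 + ‖t‖ ^ 2) * u))) =
      ∫⁻ u in Ioi (0 : ℝ), ENNReal.ofReal (Real.pi ^ ((p : ℝ) / 2)) *
        ENNReal.ofReal (u ^ ((k : ℝ) / 2 - 1) * Real.exp (-(1 * u))) := by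
    apply setLIntegral_congr_fun measurableSet_Ioi
    intro u hu
    have hu0 : (0:ℝ) < u := hu
    have h1 : ∀ t : E p, ENNReal.ofReal (u ^ (a - 1) * Real.exp (-((1 + ‖t‖ ^ 2) * u))) =
        ENNReal.ofReal (u ^ (a - 1) * Real.exp (-(1 * u))) *
          ENNReal.ofReal (Real.exp (-(‖t‖ ^ 2 * u))) := by
      intro t
      rw [← ENNReal.ofReal_mul (by positivity), mul_assoc, ← Real.exp_add]
      congr 3
      ring
    simp only
    simp_rw [h1]
    rw [lintegral_const_mul' _ _ ENNReal.ofReal_ne_top, lintegral_gauss hu0,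
      ← ENNReal.ofReal_mul (by positivity), ← ENNReal.ofReal_mul (by positivity)]
    congr 1
    rw [Real.div_rpow Real.pi_pos.le hu0.le]
    have h2 : u ^ ((k : ℝ) / 2 - 1) = u ^ (a - 1) / u ^ ((p : ℝ) / 2) := by
      rw [← Real.rpow_sub hu0]
      congr 1
      rw [ha]; push_cast; ring
    rw [h2]
    ring
  have e4 : ∫⁻ u in Ioi (0 : ℝ), ENNReal.ofReal (Real.pi ^ ((p : ℝ) / 2)) *
        ENNReal.ofReal (u ^ ((k : ℝ) / 2 - 1) * Real.exp (-(1 * u))) =
      ENNReal.ofReal (Real.pi ^ ((p : ℝ) / 2) * Real.Gamma ((k : ℝ) / 2)) := by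
    rw [lintegral_const_mul' _ _ ENNReal.ofReal_ne_top,
      lintegral_gamma (by positivity) one_pos, ← ENNReal.ofReal_mul (by positivity)]
    congr 1
    simp
  rw [e2, e3, e4] at e1
  have hG' : ENNReal.ofReal (Real.Gamma a) ≠ 0 := (ENNReal.ofReal_pos.2 hG).ne'
  have e5 : ENNReal.ofReal (Real.Gamma a) * ENNReal.ofReal (w p * lowerConst (k + p) k) =
      ENNReal.ofReal (Real.pi ^ ((p : ℝ) / 2) * Real.Gamma ((k : ℝ) / 2)) := by
    rw [← ENNReal.ofReal_mul hG.le]
    congr 1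
    unfold lowerConst w
    have h3 : ((k + p : ℕ) : ℝ) - k = p := by push_cast; ring
    rw [h3, ← ha]
    have h4 : √Real.pi ^ p = Real.pi ^ ((p : ℝ) / 2) := by
      rw [Real.sqrt_eq_rpow, ← Real.rpow_natCast, ← Real.rpow_mul Real.pi_pos.le]
      congr 1; ring
    rw [h4]
    have hG2 : 0 < Real.Gamma ((p : ℝ) / 2 + 1) := Real.Gamma_pos_of_pos (by positivity)
    field_simp
  rw [← e5] at e1
  exact (ENNReal.mul_right_inj hG' ENNReal.ofReal_ne_top).1 e1

end Pool.Agent.MP15cfc2.HR
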