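import Pool.Agent.Lib.MP_15cfc2_co_hr.Tube

/-!
Volume of the bases, and the tube cylinders.
-/

open MeasureTheory Set Metric Module Filter
open scoped ENNReal Pointwise Topology

namespace Pool.Agent.MP15cfc2.HR

variable {d k p n : ℕ}

/-- the open ellipsoid `‖v‖² / ρ² + ‖z‖² < R²` -/
def ell (p n : ℕ) (ρ R : ℝ) : Set (E p × E n) := {q | ‖ρ⁻¹ • q.1‖ ^ 2 + ‖q.2‖ ^ 2 < R ^ 2}

lemma isOpen_ell (ρ R : ℝ) : IsOpen (ell p n ρ R) := by
  unfold ell
  apply isOpen_lt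
  · fun_prop
  · fun_prop

lemma volume_ell_one (hp : 1 ≤ p) {R : ℝ} (hR : 0 < R) :
    ((volume : Measure (E p)).prod (volume : Measure (E n))) (ell p n 1 R) =
      ENNReal.ofReal (R ^ (p + n) * w (p + n)) := by
  have hfr : finrank ℝ (WithLp 2 (E p × E n)) = p + n := by
    rw [(WithLp.linearEquiv 2 ℝ (E p × E n)).finrank_eq, finrank_prod]; simp
  have h1 : (WithLp.ofLp : WithLp 2 (E p × E n) → E p × E n) ⁻¹' (ell p n 1 R) =
      ball (0 : WithLp 2 (E p × E n)) R := by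
    ext x
    rw [mem_preimage, mem_ball_zero_iff, ell, Set.mem_ofPred_eq]
    have := WithLp.prod_norm_sq_eq_of_L2 x
    rw [inv_one, one_smul]
    change ‖x.fst‖ ^ 2 + ‖x.snd‖ ^ 2 < R ^ 2 ↔ _
    rw [← this]
    exact sq_lt_sq₀ (norm_nonneg _) hR.le
  have h2 := (WithLp.volume_preserving_ofLp (E p) (E n)).measure_preimage
    (isOpen_ell (p := p) (n := n) 1 R).measurableSet.nullMeasurableSet
  rw [h1, Measure.addHaar_ball_of_pos _ _ hR, volume_unit_ball (n := p + n) (by omega) hfr,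
    hfr, ← ENNReal.ofReal_mul (by positivity)] at h2
  exact h2.symm

lemma volume_ell (hp : 1 ≤ p) {ρ R : ℝ} (hρ : 0 < ρ) (hR : 0 < R) :
    ((volume : Measure (E p)).prod (volume : Measure (E n))) (ell p n ρ R) =
      ENNReal.ofReal (ρ ^ p * R ^ (p + n) * w (p + n)) := by
  have h1 : ∀ z : E n, volume ((fun v : E p => (v, z)) ⁻¹' (ell p n ρ R)) =
      ENNReal.ofReal (ρ ^ p) * volume ((fun v : E p => (v, z)) ⁻¹' (ell p n 1 R)) := by
    intro z
    have : (fun v : E p => (v, z)) ⁻¹' (ell p n ρ R) =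
        (fun v : E p => ρ⁻¹ • v) ⁻¹' ((fun v : E p => (v, z)) ⁻¹' (ell p n 1 R)) := by
      ext v
      simp [ell]
    rw [this, Measure.addHaar_preimage_smul _ (by positivity)]
    congr 2
    rw [finrank_euclideanSpace_fin, inv_pow, inv_inv, abs_of_pos (by positivity)]
  rw [Measure.prod_apply_symm (isOpen_ell ρ R).measurableSet]
  simp_rw [h1]
  rw [lintegral_const_mul' _ _ ENNReal.ofReal_ne_top,
    ← Measure.prod_apply_symm (isOpen_ell 1 R).measurableSet, volume_ell_one hp hR,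
    ← ENNReal.ofReal_mul (by positivity), mul_assoc]

namespace Coords

variable (κ : Coords d k p n)

/-- the tube over `{(h, L₀ h, 0)}` -/
noncomputable def tube (L₀ : E k →ₗ[ℝ] E p) (ρ R : ℝ) : Cylinder d k where
  H := κ.dir L₀
  finrank_H := κ.finrank_dir L₀
  B := {z | κ.Φ L₀ z ∈ ell p n ρ R}
  measurable_B := (((κ.continuous_Φ L₀).comp continuous_subtype_val).measurable
    (isOpen_ell ρ R).measurableSet).nullMeasurableSet

lemma tube_toSet (L₀ : E k →ₗ[ℝ] E p) (ρ R : ℝ) :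
    (κ.tube L₀ ρ R).toSet = {x | κ.Φ L₀ x ∈ ell p n ρ R} := by
  rw [Cylinder.toSet_eq]
  ext x
  change κ.Φ L₀ ((κ.dir L₀)ᗮ.orthogonalProjectionOnto x : E d) ∈ ell p n ρ R ↔ _
  rw [κ.Φ_proj]
  rfl

lemma isOpen_tube (L₀ : E k →ₗ[ℝ] E p) (ρ R : ℝ) : IsOpen (κ.tube L₀ ρ R).toSet := by
  rw [tube_toSet]
  exact (isOpen_ell ρ R).preimage (κ.continuous_Φ L₀)

lemma tube_crv (hp : 1 ≤ p) {L₀ : E k →ₗ[ℝ] E p} {τ : ℝ} (hL : ∀ h, ‖L₀ h‖ = τ * ‖h‖)
    {ρ R : ℝ} (hρ : 0 < ρ) (hR : 0 < R) :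
    (κ.tube L₀ ρ R).crv (closedBall 0 1) =
      ENNReal.ofReal (ρ ^ p * R ^ (p + n) / √(1 + τ ^ 2) ^ k) := by
  have hd := κ.dim_eq
  rw [Cylinder.crv_unitBall _ (by omega)]
  have h1 := κ.volume_base L₀ hL (isOpen_ell (p := p) (n := n) ρ R).measurableSet
  rw [volume_ell hp hρ hR] at h1
  have hlam0 : 0 < √(1 + τ ^ 2) := Real.sqrt_pos.2 (by positivity)
  have hlam : (0:ℝ) < √(1 + τ ^ 2) ^ k := by positivity
  have hw := w_pos (p + n)
  have hdk : d - k = p + n := by omega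
  have h2 : volume (κ.tube L₀ ρ R).B =
      ENNReal.ofReal (ρ ^ p * R ^ (p + n) * w (p + n) / √(1 + τ ^ 2) ^ k) := by
    rw [ENNReal.ofReal_div_of_pos hlam]
    rw [ENNReal.eq_div_iff (ENNReal.ofReal_pos.2 hlam).ne' ENNReal.ofReal_ne_top, mul_comm]
    exact h1
  rw [h2, hdk, ← ENNReal.ofReal_div_of_pos hw]
  congr 1
  field_simp

end Coords

end Pool.Agent.MP15cfc2.HR
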