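import Pool.Agent.Lib.MP_15cfc2_co_hr.Asym
import Pool.Agent.Lib.MP_15cfc2_co_hr.Defs

/-!
Exact values and asymptotics of `c(d,k)`.
-/

open Filter Topology

namespace Pool.Agent.MP15cfc2.HR

open EllipsoidCylinders (radonHurwitz)

lemma G_eq (d k : ℕ) : EllipsoidCylinders.G d k = lowerConst d k := rfl

lemma exists_orthMul_of_le {k p : ℕ} (hk : 1 ≤ k) (_hp : 1 ≤ p) (h : k ≤ radonHurwitz p) :
    Nonempty (OrthMul k p) := by
  set v := padicValNat 2 p with hv
  obtain ⟨c, hc⟩ : 2 ^ v ∣ p := pow_padicValNat_dvd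
  have h1 := rad_main (v / 4) (v % 4) c (Nat.mod_lt _ (by norm_num))
  have e1 : 4 * (v / 4) + v % 4 = v := Nat.div_add_mod v 4
  rw [e1, ← hc] at h1
  refine exists_orthMul h1 hk ?_
  have h2 : radonHurwitz p = 8 * (v / 4) + 2 ^ (v % 4) := rfl
  have := Nat.one_le_two_pow (n := v % 4)
  omega

/-- the constant `c(d,k)` -/
noncomputable def cc (d k : ℕ) : ℝ := sSup {c : ℝ | Admissible d k c}

lemma isGreatest_cc {d k : ℕ} (hkd : k < d) :
    IsGreatest (EllipsoidCylinders.admissibleSet d k) (cc d k) := by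
  rw [admissibleSet_eq]
  exact isGreatest_sSup hkd

lemma lowerConst_le_cc {d k : ℕ} (hk : 2 ≤ k) (hkd : k < d) : lowerConst d k ≤ cc d k :=
  (isGreatest_sSup hkd).2 (lower_bound hk hkd)

lemma cc_le {d k p : ℕ} (hk : 1 ≤ k) (hp : 1 ≤ p) (hd : k + p ≤ d) (hM : Nonempty (OrthMul k p)) :
    cc d k ≤ lowerConst (k + p) k := by
  obtain ⟨n, rfl⟩ : ∃ n, d = k + (p + n) := ⟨d - (k + p), by omega⟩
  obtain ⟨κ⟩ := exists_coords (k := k) (p := p) (n := n) rfl
  obtain ⟨M⟩ := hM
  exact admissible_le κ M hk hp (isGreatest_sSup (by omega)).1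

lemma tendsto_cc {k : ℕ} (hk : 2 ≤ k) :
    Tendsto (fun d : ℕ => cc d k * ((d : ℝ) / 2) ^ ((k : ℝ) / 2 - 1)) atTop
      (𝓝 (Real.Gamma ((k : ℝ) / 2))) := by
  set a : ℝ := (k : ℝ) / 2 - 1 with ha
  set q : ℕ := 2 ^ (4 * k) with hq
  have hq0 : 0 < q := by positivity
  -- the comparison dimension
  let e : ℕ → ℕ := fun d => k + q * ((d - k) / q)
  have he1 : ∀ d, k ≤ d → e d ≤ d := fun d hd => by
    have := Nat.mul_div_le (d - k) q
    simp only [e]; omega
  have he2 : ∀ d, k ≤ d → d < e d + q := fun d hd => by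
    have := Nat.lt_mul_div_succ (d - k) hq0
    simp only [e]
    rw [Nat.mul_add, mul_one] at this
    omega
  have het : Tendsto e atTop atTop := by
    rw [tendsto_atTop]
    intro b
    filter_upwards [eventually_ge_atTop (b + q + k)] with d hd
    have := he2 d (by omega)
    omega
  have hratio : Tendsto (fun d : ℕ => ((d : ℝ) / 2) / ((e d : ℝ) / 2)) atTop (𝓝 1) := by
    have h1 : Tendsto (fun d : ℕ => 1 + (q : ℝ) * ((e d : ℝ))⁻¹) atTop (𝓝 (1 + q * 0)) :=
      tendsto_const_nhds.add (tendsto_const_nhds.mul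
        (tendsto_inv_atTop_zero.comp (tendsto_natCast_atTop_atTop.comp het)))
    simp only [mul_zero, add_zero] at h1
    refine tendsto_of_tendsto_of_tendsto_of_le_of_le' tendsto_const_nhds h1 ?_ ?_
    · filter_upwards [eventually_ge_atTop (k + 1), het.eventually_gt_atTop 0] with d hd hd0
      have h2 : (0 : ℝ) < e d := by exact_mod_cast hd0
      have h3 : (e d : ℝ) ≤ d := by exact_mod_cast he1 d (by omega)
      rw [le_div_iff₀ (by positivity)]
      linarith
    · filter_upwards [eventually_ge_atTop (k + 1), het.eventually_gt_atTop 0] with d hd hd0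
      have h2 : (0 : ℝ) < e d := by exact_mod_cast hd0
      have h3 : (d : ℝ) ≤ e d + q := by exact_mod_cast (he2 d (by omega)).le
      rw [div_le_iff₀ (by positivity), add_mul, mul_assoc]
      field_simp
      linarith
  have hup : Tendsto (fun d : ℕ => (lowerConst (e d) k * ((e d : ℝ) / 2) ^ a) *
      (((d : ℝ) / 2) / ((e d : ℝ) / 2)) ^ a) atTop (𝓝 (Real.Gamma ((k : ℝ) / 2))) := by
    have h1 := (tendsto_lowerConst hk).comp het
    have h2 := hratio.rpow_const (p := a) (Or.inl one_ne_zero)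
    have h3 := h1.mul h2
    simpa using h3
  refine tendsto_of_tendsto_of_tendsto_of_le_of_le' (tendsto_lowerConst hk) hup ?_ ?_
  · filter_upwards [eventually_gt_atTop k] with d hd
    have := lowerConst_le_cc hk hd
    gcongr
  · filter_upwards [eventually_ge_atTop (k + q)] with d hd
    have hc : 1 ≤ (d - k) / q := (Nat.one_le_div_iff hq0).2 (by omega)
    have hp : 1 ≤ q * ((d - k) / q) := Nat.mul_pos hq0 hc
    have hM : Nonempty (OrthMul k (q * ((d - k) / q))) := by
      have h1 := rad_main k 0 ((d - k) / q) (by norm_num)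
      exact exists_orthMul h1 (by omega) (by simp; omega)
    have h1 : cc d k ≤ lowerConst (e d) k := cc_le (by omega) hp (he1 d (by omega)) hM
    have h2 : (0 : ℝ) < (e d : ℝ) / 2 := by
      have : 0 < e d := by simp only [e]; omega
      positivity
    have h3 : (0:ℝ) ≤ (d : ℝ) / 2 := by positivity
    rw [Real.div_rpow h3 h2.le]
    have h4 : 0 < ((e d : ℝ) / 2) ^ a := by positivity
    calc cc d k * ((d : ℝ) / 2) ^ a ≤ lowerConst (e d) k * ((d : ℝ) / 2) ^ a := by gcongr
      _ = _ := by field_simp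

end Pool.Agent.MP15cfc2.HR
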