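import Pool.Agent.Lib.MP_15cfc2_co_hr.Cover

/-!
Radon–Hurwitz families of matrices and orthogonal multiplications.
-/

open Matrix
open scoped Kronecker

namespace Pool.Agent.MP15cfc2.HR

/-- A family of anticommuting orthogonal complex structures. -/
structure IsFamily {α ι : Type*} [Fintype ι] [DecidableEq ι] (J : α → Matrix ι ι ℝ) : Prop where
  skew : ∀ i, (J i)ᵀ = -J i
  sq : ∀ i, J i * J i = -1
  anti : ∀ i j, i ≠ j → J i * J j = -(J j * J i)

lemma neg_kron {ι κ : Type*} (A : Matrix ι ι ℝ) (B : Matrix κ κ ℝ) :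
    (-A) ⊗ₖ B = -(A ⊗ₖ B) := by
  ext a b; simp [kroneckerMap_apply]

lemma kron_neg {ι κ : Type*} (A : Matrix ι ι ℝ) (B : Matrix κ κ ℝ) :
    A ⊗ₖ (-B) = -(A ⊗ₖ B) := by
  ext a b; simp [kroneckerMap_apply]

/-- There are `s` anticommuting orthogonal complex structures on `ℝ^m`. -/
def Rad (s m : ℕ) : Prop := ∃ J : Fin s → Matrix (Fin m) (Fin m) ℝ, IsFamily J

lemma rad_of {α ι : Type*} [Fintype α] [Fintype ι] [DecidableEq ι] {J : α → Matrix ι ι ℝ}
    (hJ : IsFamily J) : Rad (Fintype.card α) (Fintype.card ι) := by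
  let e := Fintype.equivFin ι
  let f := Fintype.equivFin α
  refine ⟨fun i => (J (f.symm i)).submatrix e.symm e.symm, ?_, ?_, ?_⟩
  · intro i
    rw [transpose_submatrix, hJ.skew]
    rfl
  · intro i
    rw [submatrix_mul_equiv, hJ.sq]
    ext a b
    simp [Matrix.one_apply]
  · intro i j hij
    rw [submatrix_mul_equiv, submatrix_mul_equiv, hJ.anti _ _ (fun h => hij (f.symm.injective h))]
    rfl

lemma Rad.mono {s s' m : ℕ} (h : Rad s m) (hs : s' ≤ s) : Rad s' m := by
  obtain ⟨J, hJ⟩ := h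
  refine ⟨fun i => J (Fin.castLE hs i), fun i => hJ.skew _, fun i => hJ.sq _, fun i j hij => ?_⟩
  exact hJ.anti _ _ (fun h => hij (Fin.castLE_injective hs h))

lemma Rad.mul_right {s m : ℕ} (h : Rad s m) (c : ℕ) : Rad s (m * c) := by
  obtain ⟨J, hJ⟩ := h
  have h2 : IsFamily (fun i => J i ⊗ₖ (1 : Matrix (Fin c) (Fin c) ℝ)) := by
    refine ⟨fun i => ?_, fun i => ?_, fun i j hij => ?_⟩
    · rw [← kroneckerMap_transpose, hJ.skew, transpose_one]
      ext a b
      simp [kroneckerMap_apply]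
    · rw [← mul_kronecker_mul, hJ.sq, one_mul, neg_kron, one_kronecker_one]
    · rw [← mul_kronecker_mul, ← mul_kronecker_mul, hJ.anti _ _ hij, one_mul]
      ext a b
      simp [kroneckerMap_apply]
  simpa using rad_of h2

/-- letters: `1`, a rotation, two reflections -/
def mat : Fin 4 → Matrix (Fin 2) (Fin 2) ℝ :=
  ![1, !![0, 1; -1, 0], !![0, 1; 1, 0], !![1, 0; 0, -1]]

/-- sign of the transpose -/
def sT : Fin 4 → ℤ := ![1, -1, 1, 1]

/-- sign of the commutator -/
def sC (a b : Fin 4) : ℤ := if a ≠ 0 ∧ b ≠ 0 ∧ a ≠ b then -1 else 1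

lemma mat_T (a : Fin 4) : (mat a)ᵀ = (sT a : ℝ) • mat a := by
  fin_cases a <;> ext i j <;> fin_cases i <;> fin_cases j <;> simp [mat, sT]

lemma mat_sq (a : Fin 4) : mat a * mat a = (sT a : ℝ) • 1 := by
  fin_cases a <;> ext i j <;> fin_cases i <;> fin_cases j <;> simp [mat, sT, Matrix.mul_apply]

lemma mat_comm (a b : Fin 4) : mat a * mat b = (sC a b : ℝ) • (mat b * mat a) := by
  fin_cases a <;> fin_cases b <;> ext i j <;> fin_cases i <;> fin_cases j <;>
    simp [mat, sC, Matrix.mul_apply]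

/-- A family made from words. -/
def word (w : Fin 4 × Fin 4 × Fin 4) :
    Matrix (Fin 2 × Fin 2 × Fin 2) (Fin 2 × Fin 2 × Fin 2) ℝ :=
  mat w.1 ⊗ₖ (mat w.2.1 ⊗ₖ mat w.2.2)

lemma word_T (w : Fin 4 × Fin 4 × Fin 4) :
    (word w)ᵀ = ((sT w.1 * (sT w.2.1 * sT w.2.2) : ℤ) : ℝ) • word w := by
  rw [word, ← kroneckerMap_transpose, ← kroneckerMap_transpose, mat_T, mat_T, mat_T]
  rw [smul_kronecker, smul_kronecker, kronecker_smul, kronecker_smul, kronecker_smul]
  simp only [smul_smul]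
  push_cast
  rfl

lemma word_sq (w : Fin 4 × Fin 4 × Fin 4) :
    word w * word w = ((sT w.1 * (sT w.2.1 * sT w.2.2) : ℤ) : ℝ) • 1 := by
  rw [word, ← mul_kronecker_mul, ← mul_kronecker_mul, mat_sq, mat_sq, mat_sq]
  rw [smul_kronecker, smul_kronecker, kronecker_smul, kronecker_smul, kronecker_smul]
  simp only [smul_smul]
  rw [one_kronecker_one, one_kronecker_one]
  push_cast
  rfl

lemma word_comm (w v : Fin 4 × Fin 4 × Fin 4) :
    word w * word v = ((sC w.1 v.1 * (sC w.2.1 v.2.1 * sC w.2.2 v.2.2) : ℤ) : ℝ) •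
      (word v * word w) := by
  rw [word, word, ← mul_kronecker_mul, ← mul_kronecker_mul, ← mul_kronecker_mul,
    ← mul_kronecker_mul, mat_comm w.1, mat_comm w.2.1, mat_comm w.2.2]
  rw [smul_kronecker, smul_kronecker, kronecker_smul, kronecker_smul, kronecker_smul]
  simp only [smul_smul]
  push_cast
  rfl

/-- the seven words of the octonions -/
def octW : Fin 7 → Fin 4 × Fin 4 × Fin 4 :=
  ![(0, 0, 1), (0, 1, 2), (1, 0, 3), (1, 2, 2), (1, 3, 2), (2, 1, 3), (3, 1, 3)]

lemma family_oct : IsFamily (fun i => word (octW i)) := by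
  refine ⟨fun i => ?_, fun i => ?_, fun i j hij => ?_⟩
  · rw [word_T]
    have : ∀ i : Fin 7, sT (octW i).1 * (sT (octW i).2.1 * sT (octW i).2.2) = -1 := by decide
    rw [this]; simp
  · rw [word_sq]
    have : ∀ i : Fin 7, sT (octW i).1 * (sT (octW i).2.1 * sT (octW i).2.2) = -1 := by decide
    rw [this]; simp
  · rw [word_comm]
    have : ∀ i j : Fin 7, i ≠ j → sC (octW i).1 (octW j).1 *
      (sC (octW i).2.1 (octW j).2.1 * sC (octW i).2.2 (octW j).2.2) = -1 := by decide
    rw [this i j hij]; simp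

/-- the three words of the quaternions -/
def quatW : Fin 3 → Fin 4 × Fin 4 := ![(0, 1), (1, 2), (1, 3)]

lemma family_quat : IsFamily (fun i => mat (quatW i).1 ⊗ₖ mat (quatW i).2) := by
  refine ⟨fun i => ?_, fun i => ?_, fun i j hij => ?_⟩
  · rw [← kroneckerMap_transpose, mat_T, mat_T, smul_kronecker, kronecker_smul, smul_smul]
    have : ∀ i : Fin 3, sT (quatW i).1 * sT (quatW i).2 = -1 := by decide
    rw [← Int.cast_mul, this]; simp
  · rw [← mul_kronecker_mul, mat_sq, mat_sq, smul_kronecker, kronecker_smul, smul_smul,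
      one_kronecker_one]
    have : ∀ i : Fin 3, sT (quatW i).1 * sT (quatW i).2 = -1 := by decide
    rw [← Int.cast_mul, this]; simp
  · rw [← mul_kronecker_mul, ← mul_kronecker_mul, mat_comm (quatW i).1, mat_comm (quatW i).2,
      smul_kronecker, kronecker_smul, smul_smul]
    have : ∀ i j : Fin 3, i ≠ j → sC (quatW i).1 (quatW j).1 * sC (quatW i).2 (quatW j).2 = -1 := by
      decide
    rw [← Int.cast_mul, this i j hij]; simp

lemma family_comp : IsFamily (fun _ : Fin 1 => mat 1) := by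
  refine ⟨fun i => ?_, fun i => ?_, fun i j hij => absurd (Subsingleton.elim i j) hij⟩
  · rw [mat_T]; simp [sT]
  · rw [mat_sq]; simp [sT]

lemma rad_one : Rad 0 1 := ⟨fun i => i.elim0, ⟨fun i => i.elim0, fun i => i.elim0, fun i => i.elim0⟩⟩

lemma rad_two : Rad 1 2 := by simpa using rad_of family_comp

lemma rad_four : Rad 3 4 := by simpa using rad_of family_quat

lemma rad_eight : Rad 7 8 := by simpa using rad_of family_oct

lemma IsFamily.sum {α β ι κ : Type*} [Fintype ι] [DecidableEq ι] [Fintype κ] [DecidableEq κ]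
    {E : β → Matrix ι ι ℝ} (hE : IsFamily E) {F : Matrix ι ι ℝ} (hF : Fᵀ = F) (hFF : F * F = 1)
    (hEF : ∀ i, E i * F = -(F * E i)) {J : α → Matrix κ κ ℝ} (hJ : IsFamily J) :
    IsFamily (Sum.elim (fun i => E i ⊗ₖ (1 : Matrix κ κ ℝ)) (fun j => F ⊗ₖ J j)) := by
  have hFE : ∀ i, F * E i = -(E i * F) := fun i => by rw [hEF, neg_neg]
  refine ⟨?_, ?_, ?_⟩
  · rintro (i | j)
    · rw [Sum.elim_inl, ← kroneckerMap_transpose, hE.skew, transpose_one, neg_kron]
    · rw [Sum.elim_inr, ← kroneckerMap_transpose, hJ.skew, hF, kron_neg]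
  · rintro (i | j)
    · rw [Sum.elim_inl, ← mul_kronecker_mul, hE.sq, one_mul, neg_kron, one_kronecker_one]
    · rw [Sum.elim_inr, ← mul_kronecker_mul, hJ.sq, hFF, kron_neg, one_kronecker_one]
  · rintro (i | i) (j | j) hij
    · rw [Sum.elim_inl, Sum.elim_inl, ← mul_kronecker_mul, ← mul_kronecker_mul,
        hE.anti _ _ (fun h => hij (by rw [h])), one_mul, neg_kron]
    · rw [Sum.elim_inl, Sum.elim_inr, ← mul_kronecker_mul, ← mul_kronecker_mul, hEF, one_mul,
        mul_one, neg_kron]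
    · rw [Sum.elim_inl, Sum.elim_inr, ← mul_kronecker_mul, ← mul_kronecker_mul, hFE, one_mul,
        mul_one, neg_kron]
    · rw [Sum.elim_inr, Sum.elim_inr, ← mul_kronecker_mul, ← mul_kronecker_mul,
        hJ.anti _ _ (fun h => hij (by rw [h])), hFF, kron_neg]

lemma mat_anti {a b : Fin 4} (h : sC a b = -1) : mat a * mat b = -(mat b * mat a) := by
  rw [mat_comm, h]; simp

lemma Rad.step {s m : ℕ} (h : Rad s m) : Rad (s + 8) (16 * m) := by
  obtain ⟨J, hJ⟩ := h
  have h1 := family_comp.sum (F := mat 3) (by rw [mat_T]; simp [sT]) (by rw [mat_sq]; simp [sT])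
    (fun _ => mat_anti (by decide)) family_oct
  have h2 := h1.sum (F := mat 2 ⊗ₖ (1 : Matrix (Fin 2 × Fin 2 × Fin 2) (Fin 2 × Fin 2 × Fin 2) ℝ))
    (by rw [← kroneckerMap_transpose, transpose_one, mat_T]; simp [sT])
    (by rw [← mul_kronecker_mul, mat_sq, one_mul]; simp [sT])
    (by
      rintro (i | j)
      · rw [Sum.elim_inl, ← mul_kronecker_mul, ← mul_kronecker_mul,
          mat_anti (a := 1) (b := 2) (by decide), one_mul, neg_kron]
      · rw [Sum.elim_inr, ← mul_kronecker_mul, ← mul_kronecker_mul,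
          mat_anti (a := 3) (b := 2) (by decide), one_mul, mul_one, neg_kron]) hJ
  have h3 := rad_of h2
  have e1 : Fintype.card ((Fin 1 ⊕ Fin 7) ⊕ Fin s) = s + 8 := by
    simp; omega
  have e2 : Fintype.card ((Fin 2 × (Fin 2 × Fin 2 × Fin 2)) × Fin m) = 16 * m := by
    simp
  rwa [e1, e2] at h3

/-- The families of Radon and Hurwitz. -/
lemma rad_main (a b c : ℕ) (hb : b < 4) : Rad (8 * a + 2 ^ b - 1) (2 ^ (4 * a + b) * c) := by
  apply Rad.mul_right
  induction a with
  | zero =>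
    interval_cases b
    · exact rad_one
    · exact rad_two
    · exact rad_four
    · exact rad_eight
  | succ a ih =>
    have h := ih.step
    have e1 : 8 * a + 2 ^ b - 1 + 8 = 8 * (a + 1) + 2 ^ b - 1 := by
      have := Nat.one_le_two_pow (n := b)
      omega
    have e2 : 16 * 2 ^ (4 * a + b) = 2 ^ (4 * (a + 1) + b) := by
      rw [show 4 * (a + 1) + b = (4 * a + b) + 4 by ring, pow_add _ (4 * a + b) 4]; ring
    rwa [e1, e2] at h

/-! ### orthogonal multiplications -/

/-- the matrix `h₀ + ∑ hᵢ Jᵢ` -/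
noncomputable def comb {s m : ℕ} (J : Fin s → Matrix (Fin m) (Fin m) ℝ) (h : E (s + 1)) :
    Matrix (Fin m) (Fin m) ℝ :=
  h 0 • 1 + ∑ i : Fin s, h i.succ • J i

lemma comb_transpose_mul {s m : ℕ} {J : Fin s → Matrix (Fin m) (Fin m) ℝ} (hJ : IsFamily J)
    (h : E (s + 1)) : (comb J h)ᵀ * comb J h = (∑ i, h i ^ 2) • 1 := by
  set S : Matrix (Fin m) (Fin m) ℝ := ∑ i : Fin s, h i.succ • J i with hS
  have hST : Sᵀ = -S := by
    rw [hS, transpose_sum, ← Finset.sum_neg_distrib]
    apply Finset.sum_congr rfl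
    intro i _
    rw [transpose_smul, hJ.skew, smul_neg]
  have hSS : S * S = -((∑ i : Fin s, h i.succ ^ 2) • (1 : Matrix (Fin m) (Fin m) ℝ)) := by
    have h1 : S * S = ∑ i, ∑ j, (h i.succ * h j.succ) • (J i * J j) := by
      rw [hS, Finset.sum_mul]
      apply Finset.sum_congr rfl
      intro i _
      rw [Finset.mul_sum]
      apply Finset.sum_congr rfl
      intro j _
      rw [smul_mul_smul_comm]
    have h2 : S * S = ∑ i, ∑ j, (h i.succ * h j.succ) • (J j * J i) := by
      rw [h1, Finset.sum_comm]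
      apply Finset.sum_congr rfl
      intro i _
      apply Finset.sum_congr rfl
      intro j _
      rw [mul_comm]
    have h3 : S * S + S * S = ∑ i, ∑ j, (h i.succ * h j.succ) • (J i * J j + J j * J i) := by
      conv_lhs => rw [h1]
      conv_lhs => enter [2]; rw [← h1, h2]
      simp only [← Finset.sum_add_distrib, ← smul_add]
    have h4 : ∀ i j, J i * J j + J j * J i =
        (if i = j then (-2 : ℝ) else 0) • (1 : Matrix (Fin m) (Fin m) ℝ) := by
      intro i j
      by_cases hij : i = j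
      · subst hij
        rw [hJ.sq, if_pos rfl]
        module
      · rw [hJ.anti i j hij, if_neg hij]
        simp
    have h5 : S * S + S * S = ((-2) * ∑ i : Fin s, h i.succ ^ 2) •
        (1 : Matrix (Fin m) (Fin m) ℝ) := by
      rw [h3]
      simp only [h4, smul_smul]
      simp only [← Finset.sum_smul]
      congr 1
      rw [Finset.mul_sum]
      apply Finset.sum_congr rfl
      intro i _
      simp
      ring
    have h6 : (2 : ℝ) • (S * S) = (2 : ℝ) • -((∑ i : Fin s, h i.succ ^ 2) •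
        (1 : Matrix (Fin m) (Fin m) ℝ)) := by
      rw [two_smul, h5, ← smul_neg, smul_smul, mul_comm, ← neg_smul_neg]
      module
    exact smul_right_injective _ (two_ne_zero) h6
  have h7 : comb J h = h 0 • 1 + S := rfl
  rw [h7, transpose_add, transpose_smul, transpose_one, hST, add_mul, mul_add, mul_add]
  simp only [smul_mul_assoc, one_mul, mul_smul_comm, mul_one, neg_mul]
  rw [hSS, Fin.sum_univ_succ, add_smul, smul_smul, pow_two]
  module

lemma exists_orthMul {s m k : ℕ} (h : Rad s m) (hk : 1 ≤ k) (hks : k ≤ s + 1) :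
    Nonempty (OrthMul k m) := by
  obtain ⟨s', rfl⟩ : ∃ s', k = s' + 1 := ⟨k - 1, by omega⟩
  obtain ⟨J, hJ⟩ := h.mono (s' := s') (by omega)
  refine ⟨⟨LinearMap.mk₂ ℝ (fun t h => WithLp.toLp 2 (comb J h *ᵥ (WithLp.ofLp t)))
    ?_ ?_ ?_ ?_, ?_⟩⟩
  · intro t t' h
    simp [mulVec_add]
  · intro c t h
    simp [mulVec_smul]
  · intro t h h'
    have : comb J (h + h') = comb J h + comb J h' := by
      simp only [comb, PiLp.add_apply, add_smul, Finset.sum_add_distrib]
      abel
    simp [this, add_mulVec]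
  · intro c t h
    have : comb J (c • h) = c • comb J h := by
      simp only [comb, PiLp.smul_apply, smul_eq_mul, mul_smul, smul_add, Finset.smul_sum]
    simp [this, smul_mulVec]
  · intro t h
    rw [LinearMap.mk₂_apply]
    have h1 : ‖(WithLp.toLp 2 (comb J h *ᵥ (WithLp.ofLp t)) : E m)‖ ^ 2 = (‖t‖ * ‖h‖) ^ 2 := by
      rw [mul_pow, EuclideanSpace.real_norm_sq_eq, EuclideanSpace.real_norm_sq_eq,
        EuclideanSpace.real_norm_sq_eq]
      have h2 : ∑ i, (comb J h *ᵥ (WithLp.ofLp t)) i ^ 2 =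
          (comb J h *ᵥ (WithLp.ofLp t)) ⬝ᵥ (comb J h *ᵥ (WithLp.ofLp t)) := by
        simp [dotProduct, pow_two]
      have h3 : ∑ i, (WithLp.ofLp t) i ^ 2 = (WithLp.ofLp t) ⬝ᵥ (WithLp.ofLp t) := by
        simp [dotProduct, pow_two]
      change ∑ i, (comb J h *ᵥ (WithLp.ofLp t)) i ^ 2 = _
      rw [h2, h3, dotProduct_mulVec, vecMul_mulVec, ← dotProduct_mulVec, comb_transpose_mul hJ]
      rw [smul_mulVec, one_mulVec, dotProduct_smul, smul_eq_mul, mul_comm]
    exact (sq_eq_sq₀ (norm_nonneg _) (by positivity)).1 h1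

end Pool.Agent.MP15cfc2.HR
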