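import Pool.Agent.Lib.MP_15cfc2_co_hr.Coords

/-!
The cylinders over the `k`-planes `{(h, L₀ h, 0)}`, and the volume of their bases.
-/

open MeasureTheory Set Metric Module Filter
open scoped ENNReal Pointwise Topology

namespace Pool.Agent.MP15cfc2.HR

namespace Coords

variable {d k p n : ℕ} (κ : Coords d k p n) (L₀ : E k →ₗ[ℝ] E p)

/-- the linear map with kernel `{(h, L₀ h, 0)}`. -/
noncomputable def Φ : E d →ₗ[ℝ] (E p × E n) :=
  (κ.b - L₀ ∘ₗ κ.a).prod κ.s

lemma Φ_apply (x : E d) : κ.Φ L₀ x = (κ.b x - L₀ (κ.a x), κ.s x) := rfl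

lemma continuous_Φ : Continuous (κ.Φ L₀) := (κ.Φ L₀).continuous_of_finiteDimensional

lemma Φ_surjective : Function.Surjective (κ.Φ L₀) := by
  rintro ⟨y, z⟩
  obtain ⟨x, h1, h2, h3⟩ := κ.surj 0 y z
  exact ⟨x, by simp [Φ_apply, h1, h2, h3]⟩

/-- the direction space `{(h, L₀ h, 0)}` -/
noncomputable def dir : Submodule ℝ (E d) := LinearMap.ker (κ.Φ L₀)

lemma mem_dir (x : E d) : x ∈ κ.dir L₀ ↔ κ.b x = L₀ (κ.a x) ∧ κ.s x = 0 := by
  rw [dir, LinearMap.mem_ker, Φ_apply, Prod.mk_eq_zero, sub_eq_zero]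

lemma finrank_dir : finrank ℝ (κ.dir L₀) = k := by
  have h1 := (κ.Φ L₀).finrank_range_add_finrank_ker
  rw [LinearMap.range_eq_top.2 (κ.Φ_surjective L₀), finrank_top] at h1
  have h2 := κ.dim_eq
  simp only [finrank_prod, finrank_euclideanSpace, Fintype.card_fin] at h1
  unfold dir
  omega

lemma Φ_proj (x : E d) : κ.Φ L₀ ((κ.dir L₀)ᗮ.orthogonalProjectionOnto x : E d) = κ.Φ L₀ x := by
  have h3 : x - ((κ.dir L₀)ᗮ.orthogonalProjectionOnto x : E d)
      = (κ.dir L₀).orthogonalProjectionOnto x := by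
    rw [sub_eq_iff_eq_add]
    exact ((κ.dir L₀).starProjection_add_starProjection_orthogonal x).symm
  have h4 : κ.Φ L₀ (x - ((κ.dir L₀)ᗮ.orthogonalProjectionOnto x : E d)) = 0 := by
    rw [h3]
    exact Subtype.mem ((κ.dir L₀).orthogonalProjectionOnto x)
  rw [map_sub, sub_eq_zero] at h4
  exact h4.symm

/-- the shear `(a, Φ)` preserves volume -/
lemma measurePreserving_shear :
    MeasurePreserving (fun x => (κ.a x, κ.Φ L₀ x)) volume (volume.prod (volume.prod volume)) := by
  have hL : Continuous L₀ := L₀.continuous_of_finiteDimensional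
  have h1 : MeasurePreserving
      (fun q : E k × (E p × E n) => (q.1, ((-(L₀ q.1), (0 : E n)) : E p × E n) + q.2))
      (volume.prod (volume.prod volume)) (volume.prod (volume.prod volume)) := by
    refine (MeasurePreserving.id (volume : Measure (E k))).skew_product
      (g := fun h w => ((-(L₀ h), (0 : E n)) : E p × E n) + w) ?_ ?_
    · have : Continuous (fun q : E k × (E p × E n) =>
        ((-(L₀ q.1), (0 : E n)) : E p × E n) + q.2) := by fun_prop
      exact this.measurable
    · refine Eventually.of_forall fun h => ?_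
      exact (measurePreserving_add_left ((volume : Measure (E p)).prod (volume : Measure (E n)))
        ((-(L₀ h), (0 : E n)) : E p × E n)).map_eq
  have h2 := h1.comp κ.mp
  convert! h2 using 1
  funext x
  simp only [Function.comp_apply, Φ_apply, Prod.mk_add_mk, zero_add]
  rw [neg_add_eq_sub]

/-- volume of the base of a tube -/
lemma volume_base {τ : ℝ} (hL : ∀ h, ‖L₀ h‖ = τ * ‖h‖) {U : Set (E p × E n)}
    (hU : MeasurableSet U) :
    volume {z : (κ.dir L₀)ᗮ | κ.Φ L₀ z ∈ U} * ENNReal.ofReal (√(1 + τ ^ 2) ^ k) =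
      (volume.prod volume) U := by
  set H := κ.dir L₀ with hH
  set T : Set (E d) := {x | κ.Φ L₀ x ∈ U ∧ ‖κ.a x‖ < 1} with hT
  set lam : ℝ := √(1 + τ ^ 2) with hlam
  have hlam0 : 0 < lam := Real.sqrt_pos.2 (by positivity)
  have hlam2 : lam ^ 2 = 1 + τ ^ 2 := Real.sq_sqrt (by positivity)
  set ω : ℝ≥0∞ := volume (ball (0 : E k) 1) with hω
  -- first computation
  have e1 : volume T = ω * (volume.prod volume) U := by
    have : T = (fun x => (κ.a x, κ.Φ L₀ x)) ⁻¹' (ball (0 : E k) 1 ×ˢ U) := by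
      ext x
      simp [hT, and_comm]
    rw [this, (κ.measurePreserving_shear L₀).measure_preimage
      (measurableSet_ball.prod hU).nullMeasurableSet, Measure.prod_prod]
  -- the isometry
  have hnorm : ∀ u : H, ‖u‖ = lam * ‖κ.a u‖ := by
    intro u
    have h1 := (κ.mem_dir L₀ u).1 u.2
    have h2 := κ.norm_sq u
    rw [h1.1, h1.2, hL, norm_zero] at h2
    have h3 : ‖(u : E d)‖ ^ 2 = (lam * ‖κ.a u‖) ^ 2 := by
      rw [h2, mul_pow, mul_pow, hlam2]; ring
    have h4 := (sq_eq_sq₀ (norm_nonneg _) (by positivity)).1 h3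
    simpa using h4
  let i0 : H →ₗ[ℝ] E k := lam • (κ.a ∘ₗ H.subtype)
  have hi0 : ∀ u, ‖i0 u‖ = ‖u‖ := by
    intro u
    rw [hnorm u]
    simp [i0, norm_smul, abs_of_pos hlam0]
  let i1 : H →ₗᵢ[ℝ] E k := ⟨i0, hi0⟩
  let i : H ≃ₗᵢ[ℝ] E k := i1.toLinearIsometryEquiv (by
    rw [hH, κ.finrank_dir L₀]; simp)
  have hi : ∀ u : H, i u = lam • κ.a u := fun u => rfl
  have slice : ∀ c : E k, volume {u : H | ‖κ.a u + c‖ < 1} = ENNReal.ofReal (lam ^ k) * ω := by
    intro c
    have h1 : {u : H | ‖κ.a u + c‖ < 1} = i ⁻¹' (ball (-(lam • c)) lam) := by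
      ext u
      simp only [Set.mem_ofPred_eq, mem_preimage, mem_ball, dist_eq_norm, hi, sub_neg_eq_add,
        ← smul_add, norm_smul, Real.norm_eq_abs, abs_of_pos hlam0]
      constructor
      · intro h
        nlinarith
      · intro h
        by_contra h'
        push Not at h'
        nlinarith
    rw [h1, i.measurePreserving.measure_preimage measurableSet_ball.nullMeasurableSet,
      Measure.addHaar_ball_of_pos _ _ hlam0]
    simp [hω]
  -- second computation
  have e2 : volume T = ENNReal.ofReal (lam ^ k) * ω * volume {z : Hᗮ | κ.Φ L₀ z ∈ U} := by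
    let T' : Set (H × Hᗮ) := {q | κ.Φ L₀ q.2 ∈ U ∧ ‖κ.a q.1 + κ.a q.2‖ < 1}
    have hB : MeasurableSet {z : Hᗮ | κ.Φ L₀ z ∈ U} :=
      ((κ.continuous_Φ L₀).comp continuous_subtype_val).measurable hU
    have hT'm : MeasurableSet T' := by
      apply MeasurableSet.inter
      · exact ((κ.continuous_Φ L₀).comp (continuous_subtype_val.comp continuous_snd)).measurable hU
      · have hc : Continuous fun q : H × Hᗮ => ‖κ.a q.1 + κ.a q.2‖ :=
          ((κ.continuous_a.comp (continuous_subtype_val.comp continuous_fst)).add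
            (κ.continuous_a.comp (continuous_subtype_val.comp continuous_snd))).norm
        exact measurableSet_lt hc.measurable measurable_const
    have hTT' : T = (fun x : E d => (H.orthogonalProjectionOnto x,
        Hᗮ.orthogonalProjectionOnto x)) ⁻¹' T' := by
      ext x
      simp only [hT, T', mem_preimage, Set.mem_ofPred_eq]
      rw [κ.Φ_proj L₀ x, ← map_add]
      have := H.starProjection_add_starProjection_orthogonal x
      have h5 : ((H.orthogonalProjectionOnto x : H) : E d) +
        ((Hᗮ.orthogonalProjectionOnto x : Hᗮ) : E d) = x := this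
      rw [h5]
    rw [hTT', (measurePreserving_split H).measure_preimage hT'm.nullMeasurableSet,
      Measure.prod_apply_symm hT'm]
    have h6 : ∀ z : Hᗮ, volume ((fun u : H => (u, z)) ⁻¹' T') =
        {z : Hᗮ | κ.Φ L₀ z ∈ U}.indicator (fun _ => ENNReal.ofReal (lam ^ k) * ω) z := by
      intro z
      by_cases hz : κ.Φ L₀ z ∈ U
      · rw [indicator_of_mem (by exact hz), ← slice (κ.a z)]
        congr 1
        ext u
        simp [T', hz]
      · rw [indicator_of_notMem (by exact hz)]
        have : (fun u : H => (u, z)) ⁻¹' T' = ∅ := by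
          ext u
          simp [T', hz]
        rw [this, measure_empty]
    simp_rw [h6]
    rw [lintegral_indicator hB, setLIntegral_const]
  have hω0 : ω ≠ 0 := (measure_ball_pos volume _ one_pos).ne'
  have hωt : ω ≠ ∞ := measure_ball_lt_top.ne
  rw [e1] at e2
  have e3 : ω * (volume.prod volume) U =
      ω * (volume {z : Hᗮ | κ.Φ L₀ z ∈ U} * ENNReal.ofReal (lam ^ k)) := by
    rw [e2]; ring
  exact ((ENNReal.mul_right_inj hω0 hωt).1 e3).symm

end Coords

end Pool.Agent.MP15cfc2.HR
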